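import Mathlib

set_option autoImplicit false

namespace Pool.Agent.Results.MP_9df12e_lc.Meager

open Set Filter Topology

/-- `S₁(Γ₁, Γ)` for a space `X`. -/
def S1Gamma1Gamma (X : Type) [TopologicalSpace X] : Prop :=
  ∀ V : ℕ → ℕ → Set X, (∀ n m, IsOpen (V n m)) → (∀ x n, {m | x ∉ V n m}.encard ≤ 1) →
    ∃ d : ℕ → ℕ, ∀ x, ∀ᶠ n in atTop, x ∈ V n (d n)

/-- `X ∩ P` is meager in the subspace `P` for every nonempty perfect set `P ⊆ ℝ`. -/
def PerfectlyMeager (X : Set ℝ) : Prop :=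
  ∀ P : Set ℝ, Perfect P → P.Nonempty → IsMeagre (Subtype.val ⁻¹' X : Set P)

/-- In a crowded metric space, finitely many nonempty open sets admit infinitely many pairwise
disjoint closed sets, each with interior meeting all of the given open sets. -/
lemma step {P : Type} [MetricSpace P] [PerfectSpace P] (k : ℕ) (O : ℕ → Set P)
    (hO : ∀ i, IsOpen (O i) ∧ (O i).Nonempty) :
    ∃ (F : Set P) (O' : ℕ → Set P), IsClosed F ∧ (∀ i, IsOpen (O' i) ∧ (O' i).Nonempty) ∧
      (∀ i, O' i ⊆ O i) ∧ (∀ i < k, (interior F ∩ O i).Nonempty) ∧ F ⊆ ⋃ i < k, O i ∧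
      ∀ i < k, Disjoint F (O' i) := by
  have hinf : ∀ i, (O i).Infinite := fun i => by
    obtain ⟨x, hx⟩ := (hO i).2
    exact infinite_of_mem_nhds x ((hO i).1.mem_nhds hx)
  choose a ha using fun i => (hO i).2
  have hA : (a '' {i | i < k}).Finite := (finite_lt_nat k).image _
  choose b hb using fun i => ((hinf i).diff hA).nonempty
  have hB : (b '' {i | i < k}).Finite := (finite_lt_nat k).image _
  have h1 : ∀ i, ∃ C : Set P, C ∈ 𝓝 (a i) ∧ IsClosed C ∧
      (i < k → C ⊆ O i ∩ (b '' {i | i < k})ᶜ) := by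
    intro i
    by_cases hi : i < k
    · have : O i ∩ (b '' {i | i < k})ᶜ ∈ 𝓝 (a i) := by
        refine ((hO i).1.inter hB.isClosed.isOpen_compl).mem_nhds ⟨ha i, ?_⟩
        rintro ⟨j, -, hj⟩
        exact (hb j).2 ⟨i, hi, hj.symm⟩
      obtain ⟨C, hC1, hC2, hC3⟩ := exists_mem_nhds_isClosed_subset this
      exact ⟨C, hC1, hC2, fun _ => hC3⟩
    · exact ⟨univ, univ_mem, isClosed_univ, fun h => absurd h hi⟩
  choose C hC1 hC2 hC3 using h1
  have hF : IsClosed (⋃ i ∈ {i | i < k}, C i) := (finite_lt_nat k).isClosed_biUnion fun i _ => hC2 i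
  refine ⟨⋃ i ∈ {i | i < k}, C i, fun i => if i < k then O i \ ⋃ i ∈ {i | i < k}, C i else O i,
    hF, fun i => ?_, fun i => ?_, fun i hi => ?_, ?_, fun i hi => ?_⟩
  · beta_reduce
    split_ifs with hi
    · refine ⟨(hO i).1.sdiff hF, b i, (hb i).1, ?_⟩
      simp only [mem_iUnion, not_exists]
      intro j hj hbj
      exact (hC3 j hj hbj).2 ⟨i, hi, rfl⟩
    · exact hO i
  · beta_reduce
    split_ifs with hi
    · exact diff_subset
    · exact subset_rfl
  · exact ⟨a i, mem_interior_iff_mem_nhds.2 (mem_of_superset (hC1 i)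
      (subset_biUnion_of_mem (u := C) hi)), ha i⟩
  · exact iUnion₂_mono fun i hi => (hC3 i hi).trans inter_subset_left
  · beta_reduce
    rw [if_pos hi]
    exact disjoint_sdiff_right

lemma row {P : Type} [MetricSpace P] [PerfectSpace P] (k : ℕ) (O : ℕ → Set P)
    (hO : ∀ i, IsOpen (O i) ∧ (O i).Nonempty) :
    ∃ F : ℕ → Set P, (∀ m, IsClosed (F m)) ∧ (∀ m m', m < m' → Disjoint (F m) (F m')) ∧
      ∀ m, ∀ i < k, (interior (F m) ∩ O i).Nonempty := by
  let T : Type := {O : ℕ → Set P // ∀ i, IsOpen (O i) ∧ (O i).Nonempty}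
  choose F O' h1 h2 h3 h4 h5 h6 using fun t : T => step k t.1 t.2
  let S : ℕ → T := fun m => Nat.rec ⟨O, hO⟩ (fun _ t => ⟨O' t, h2 t⟩) m
  have hS : ∀ m, (S (m + 1)).1 = O' (S m) := fun m => rfl
  have hanti : ∀ i, Antitone fun m => (S m).1 i := fun i =>
    antitone_nat_of_succ_le fun m => by rw [hS]; exact h3 _ i
  refine ⟨fun m => F (S m), fun m => h1 _, fun m m' hm => ?_, fun m i hi => ?_⟩
  · refine Disjoint.mono_right (h5 (S m')) ?_
    simp only [disjoint_iUnion_right]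
    intro i hi
    refine Disjoint.mono_right ?_ (h6 (S m) i hi)
    rw [← hS]
    exact hanti i hm
  · exact (h4 (S m) i hi).mono (inter_subset_inter_right _ (hanti i (Nat.zero_le m)))

/-- Every `S₁(Γ₁, Γ)`-space of reals is perfectly meager. -/
theorem result (X : Set ℝ) (hX : S1Gamma1Gamma X) : PerfectlyMeager X := by
  intro P hP hne
  haveI : PerfectSpace P := perfectSpace_iff_forall_not_isolated.2 fun x => by
    have := (preperfect_iff_nhds.1 hP.acc) x.1 x.2
    rw [← mem_closure_iff_nhdsWithin_neBot, mem_closure_iff_nhds]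
    intro U hU
    obtain ⟨W, hW, hWU⟩ := (mem_nhds_subtype P x U).1 hU
    obtain ⟨y, ⟨hy1, hy2⟩, hy3⟩ := this W hW
    exact ⟨⟨y, hy2⟩, hWU hy1, fun h => hy3 (congrArg Subtype.val h)⟩
  haveI : Nonempty P := hne.to_subtype
  obtain ⟨B, hBc, hBe, hB⟩ := TopologicalSpace.exists_countable_basis P
  have hBne : B.Nonempty := by
    obtain ⟨U, hU, -⟩ := hB.exists_subset_of_mem_open (mem_univ (Classical.arbitrary P)) isOpen_univ
    exact ⟨U, hU⟩
  obtain ⟨O, rfl⟩ := hBc.exists_eq_range hBne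
  have hO : ∀ i, IsOpen (O i) ∧ (O i).Nonempty := fun i =>
    ⟨hB.isOpen ⟨i, rfl⟩, nonempty_iff_ne_empty.2 fun h => hBe ⟨i, h⟩⟩
  choose F hF1 hF2 hF3 using fun k => row k O hO
  have hcl : ∀ n m, IsClosed (Subtype.val '' F n m : Set ℝ) := fun n m =>
    hP.closed.isClosedEmbedding_subtypeVal.isClosedMap _ (hF1 n m)
  obtain ⟨d, hd⟩ := hX (fun n m => Subtype.val ⁻¹' (Subtype.val '' F n m : Set ℝ)ᶜ)
    (fun n m => (hcl n m).isOpen_compl.preimage continuous_subtype_val) (by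
      intro x n
      rw [encard_le_one_iff]
      intro a b ha hb
      simp only [mem_setOf_eq, mem_preimage, mem_compl_iff, not_not] at ha hb
      obtain ⟨p, hp, hpx⟩ := ha
      obtain ⟨q, hq, hqx⟩ := hb
      have hpq : p = q := Subtype.ext (hpx.trans hqx.symm)
      subst hpq
      rcases lt_trichotomy a b with h | h | h
      · exact absurd hq (disjoint_left.1 (hF2 n a b h) hp)
      · exact h
      · exact absurd hp (disjoint_left.1 (hF2 n b a h) hq))
  have hG : ∀ k, (⋃ n ≥ k, interior (F n (d n))) ∈ residual P := by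
    intro k
    refine residual_of_dense_open (isOpen_biUnion fun _ _ => isOpen_interior) ?_
    rw [hB.dense_iff]
    rintro _ ⟨i, rfl⟩ -
    obtain ⟨y, hy1, hy2⟩ := hF3 (max k (i + 1)) (d (max k (i + 1))) i (by omega)
    exact ⟨y, hy2, mem_biUnion (le_max_left k (i + 1)) hy1⟩
  refine mem_of_superset (countable_iInter_mem.2 hG) fun p hp hpX => ?_
  obtain ⟨k, hk⟩ := eventually_atTop.1 (hd ⟨p.1, hpX⟩)
  obtain ⟨n, hn, hpn⟩ := mem_iUnion₂.1 (mem_iInter.1 hp k)
  exact hk n hn ⟨p, interior_subset hpn, rfl⟩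

end Pool.Agent.Results.MP_9df12e_lc.Meager
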